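import Pool.Agent.helper64.OT.SpecG

set_option autoImplicit false

namespace Pool.Agent.OG

open Finset Pool.Agent.OT Pool.Agent.SPI Pool.Agent.helper85.PG
open scoped Pointwise

theorem OTG (hTRG : TRG_stmt) (hTRS : TRS_stmt) (hOLD : OLD_stmt) (hMOI : MOI_stmt) : OTG_stmt := by
  intro K ε hε
  obtain ⟨δ₀, p₀, hδ₀, h₀⟩ := hTRG K ε hε
  obtain ⟨δ₁, p₁, hδ₁, h₁⟩ := hTRS ε hε
  obtain ⟨δ₂, p₂, hδ₂, h₂⟩ := hOLD K ε hε
  refine ⟨min δ₀ (min δ₁ δ₂), max p₀ (max p₁ p₂), lt_min hδ₀ (lt_min hδ₁ hδ₂), ?_⟩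
  intro p _ hp χ N X Y Z W H H' β a b c d hχ hβ hX hY hZ hyp
  have hp1 : (1 : ℝ) ≤ (p : ℝ) := by exact_mod_cast (Fact.out : p.Prime).one_lt.le
  have hT : 0 ≤ Real.sqrt (p * (X.card * Y.card)) + (X.card : ℝ) * Y.card := by positivity
  have l0 : min δ₀ (min δ₁ δ₂) ≤ δ₀ := min_le_left _ _
  have l1 : min δ₀ (min δ₁ δ₂) ≤ δ₁ := (min_le_right _ _).trans (min_le_left _ _)
  have l2 : min δ₀ (min δ₁ δ₂) ≤ δ₂ := (min_le_right _ _).trans (min_le_right _ _)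
  have q0 : p₀ < p := lt_of_le_of_lt (le_max_left _ _) hp
  have q1 : p₁ < p := lt_of_le_of_lt ((le_max_left _ _).trans (le_max_right _ _)) hp
  have q2 : p₂ < p := lt_of_le_of_lt ((le_max_right _ _).trans (le_max_right _ _)) hp
  refine hMOI p χ X Y a b c d _ hX hY ?_ β hβ
  intro β' hβ'
  rcases hyp with hS | hN | hH
  · have hZ' : (Z.card : ℝ) ≤ (p : ℝ) ^ δ₀ := hZ.trans (Real.rpow_le_rpow_of_exponent_le hp1 l0)
    refine (h₀ p q0 χ X Y Z W H β' hχ hβ' hZ' hS).trans ?_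
    exact mul_le_mul_of_nonneg_right (Real.rpow_le_rpow_of_exponent_le hp1 (neg_le_neg l0)) hT
  · have hZ' : (Z.card : ℝ) ≤ (p : ℝ) ^ δ₁ := hZ.trans (Real.rpow_le_rpow_of_exponent_le hp1 l1)
    refine (h₁ p q1 χ N X Y Z W β' hχ hβ' hZ' hN).trans ?_
    exact mul_le_mul_of_nonneg_right (Real.rpow_le_rpow_of_exponent_le hp1 (neg_le_neg l1)) hT
  · have hZ' : (Z.card : ℝ) ≤ (p : ℝ) ^ δ₂ := hZ.trans (Real.rpow_le_rpow_of_exponent_le hp1 l2)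
    have hH' : HypH p ε K δ₂ X Y Z W H H' :=
      ⟨hH.1.trans (Real.rpow_le_rpow_of_exponent_le hp1 l2), hH.2⟩
    refine (h₂ p q2 χ X Y Z W H H' β' hχ hβ' hZ' hH').trans ?_
    exact mul_le_mul_of_nonneg_right (Real.rpow_le_rpow_of_exponent_le hp1 (neg_le_neg l2)) hT

end Pool.Agent.OG
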