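import Pool.Agent.helper64.OT.SpecF

/-!
# Project OT (MP_f6e9a2_nt), row CLW
-/

set_option autoImplicit false

namespace Pool.Agent.OT

open Finset

private theorem CLW_val (p : ℕ) [Fact p.Prime] (u : ZMod p) (n N : ℕ) (hn : n < N) (hN : N ≤ p) :
    (n ≤ u.val ∧ (u - (n : ZMod p)).val = u.val - n) ∨ (u.val < n ∧ (u - (n : ZMod p)).val = u.val + p - n) := by
  have hu : u.val < p := ZMod.val_lt u
  by_cases h : n ≤ u.val
  · left
    refine ⟨h, ?_⟩
    have e : u - (n : ZMod p) = ((u.val - n : ℕ) : ZMod p) := by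
      rw [Nat.cast_sub h, ZMod.natCast_zmod_val]
    rw [e, ZMod.val_natCast_of_lt (by omega)]
  · right
    push Not at h
    refine ⟨h, ?_⟩
    have e : u - (n : ZMod p) = ((u.val + p - n : ℕ) : ZMod p) := by
      rw [Nat.cast_sub (by omega), Nat.cast_add, ZMod.natCast_zmod_val, ZMod.natCast_self, add_zero]
    rw [e, ZMod.val_natCast_of_lt (by omega)]

private theorem CLW_div (N v U : ℕ) (hN : 0 < N) (h1 : v ≤ U) (h2 : U < v + N) : v / N = U / N ∨ v / N = U / N - 1 := by
  have a : v / N ≤ U / N := Nat.div_le_div_right h1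
  have b : U / N ≤ (v + N) / N := Nat.div_le_div_right h2.le
  rw [Nat.add_div_right _ hN] at b
  generalize v / N = x at *
  generalize U / N = y at *
  omega

/-- the cells which meet `u - {0, .., N-1}` -/
private def CLW_T (p N : ℕ) (u : ZMod p) : Finset ℕ :=
  if u.val < N then {0, (p - 1) / N, (p - 1) / N - 1} else {u.val / N, u.val / N - 1}

private theorem CLW_card (p N : ℕ) (u : ZMod p) : (CLW_T p N u).card ≤ 3 := by
  unfold CLW_T
  split
  · exact Finset.card_le_three
  · exact Finset.card_le_two.trans (by norm_num)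

private theorem CLW_mem (p : ℕ) [Fact p.Prime] (u : ZMod p) (n N : ℕ) (hN0 : 0 < N) (hn : n < N) (hN : N ≤ p) :
    (u - (n : ZMod p)).val / N ∈ CLW_T p N u := by
  have hu : u.val < p := ZMod.val_lt u
  unfold CLW_T
  rcases CLW_val p u n N hn hN with ⟨h1, h2⟩ | ⟨h1, h2⟩
  · rw [h2]
    split
    · rename_i h3
      have h4 : u.val - n < N := by omega
      have h5 : (u.val - n) / N = 0 := Nat.div_eq_of_lt h4
      rw [h5]
      exact Finset.mem_insert_self _ _
    · rcases CLW_div N (u.val - n) u.val hN0 (by omega) (by omega) with h | h <;> rw [h] <;> simp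
  · rw [h2]
    split
    · rcases CLW_div N (u.val + p - n) (p - 1) hN0 (by omega) (by omega) with h | h <;> rw [h] <;> simp
    · omega

theorem CLW : CLW_stmt := by
  intro p _ N Y W z hN0 hN hY
  have hsub : cells N (Y.image fun y => z - y) ⊆ W.biUnion fun w => CLW_T p N (z - w) := by
    intro j hj
    unfold cells at hj
    obtain ⟨b, hb, rfl⟩ := Finset.mem_image.1 hj
    obtain ⟨y, hy, rfl⟩ := Finset.mem_image.1 hb
    obtain ⟨w, hw, n, hn, rfl⟩ := hY y hy
    refine Finset.mem_biUnion.2 ⟨w, hw, ?_⟩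
    have e : z - (w + (n : ZMod p)) = z - w - (n : ZMod p) := by ring
    rw [e]
    exact CLW_mem p (z - w) n N hN0 hn hN
  calc (cells N (Y.image fun y => z - y)).card ≤ (W.biUnion fun w => CLW_T p N (z - w)).card := Finset.card_le_card hsub
    _ ≤ W.card * 3 := Finset.card_biUnion_le_card_mul _ _ _ (fun w _ => CLW_card p N (z - w))
    _ = 3 * W.card := mul_comm _ _

end Pool.Agent.OT
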